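import Mathlib

/-!
Grids over `Z[√2]` and projective maps: a set of more than `2 K` points in a row
`{a + b √2 : a, b < K}` cannot be mapped to rational points by a projective map.
-/

set_option autoImplicit false

namespace Pool.Agent.Y374.NFGrid

/-- the number `a + b √2` -/
noncomputable def phi (p : ℕ × ℕ) : ℝ := p.1 + p.2 * √2

lemma int_lin {u v : ℤ} (h : (u : ℝ) + v * √2 = 0) : u = 0 ∧ v = 0 := by
  have hv : v = 0 := by
    by_contra hv
    have hirr := irrational_sqrt_two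
    apply hirr
    refine ⟨(-u : ℤ) / (v : ℤ), ?_⟩
    have hv' : (v : ℝ) ≠ 0 := by exact_mod_cast hv
    push_cast
    field_simp
    linarith
  subst hv
  refine ⟨?_, rfl⟩
  have : (u : ℝ) = 0 := by simpa using h
  exact_mod_cast this

lemma phi_inj : Function.Injective phi := by
  rintro ⟨a, b⟩ ⟨c, d⟩ h
  unfold phi at h
  simp only at h
  have h' : (((a : ℤ) - (c : ℤ) : ℤ) : ℝ) + (((b : ℤ) - (d : ℤ) : ℤ) : ℝ) * √2 = 0 := by
    push_cast
    linarith
  obtain ⟨h1, h2⟩ := int_lin h'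
  have h3 : a = c := by omega
  have h4 : b = d := by omega
  rw [h3, h4]

/-- the algebraic core: a nonconstant Möbius map cannot take integer values at three points
`a₁ + b √2, a₂ + b √2, a₃ + b √2` and at a fourth point `a₄ + b₄ √2`, `b₄ ≠ b`. -/
lemma core (α β γ δ : ℝ) (hD : α * δ - β * γ ≠ 0) (b b4 : ℕ) (hb : b4 ≠ b)
    (a1 a2 a3 a4 : ℕ) (h12 : a1 ≠ a2) (h13 : a1 ≠ a3) (h23 : a2 ≠ a3)
    (r1 r2 r3 r4 : ℤ)
    (w1 : γ * phi (a1, b) + δ ≠ 0) (w2 : γ * phi (a2, b) + δ ≠ 0)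
    (w3 : γ * phi (a3, b) + δ ≠ 0) (w4 : γ * phi (a4, b4) + δ ≠ 0)
    (e1 : α * phi (a1, b) + β = r1 * (γ * phi (a1, b) + δ))
    (e2 : α * phi (a2, b) + β = r2 * (γ * phi (a2, b) + δ))
    (e3 : α * phi (a3, b) + β = r3 * (γ * phi (a3, b) + δ))
    (e4 : α * phi (a4, b4) + β = r4 * (γ * phi (a4, b4) + δ)) : False := by
  -- abbreviations
  generalize hx1 : phi (a1, b) = x1 at *
  generalize hx2 : phi (a2, b) = x2 at *
  generalize hx3 : phi (a3, b) = x3 at *
  generalize hx4 : phi (a4, b4) = x4 at *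
  generalize hw1 : γ * x1 + δ = v1 at *
  generalize hw2 : γ * x2 + δ = v2 at *
  generalize hw3 : γ * x3 + δ = v3 at *
  generalize hw4 : γ * x4 + δ = v4 at *
  set D : ℝ := α * δ - β * γ with hDdef
  have key : ∀ (x y v w : ℝ) (r s : ℤ), γ * x + δ = v → γ * y + δ = w →
      α * x + β = r * v → α * y + β = s * w → ((r : ℝ) - s) * (v * w) = D * (x - y) := by
    intro x y v w r s hv hw hr hs
    have h1 : ((r : ℝ) - s) * (v * w) = (r * v) * w - (s * w) * v := by ring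
    rw [h1, ← hr, ← hs, ← hv, ← hw, hDdef]
    ring
  have k43 := key x4 x3 v4 v3 r4 r3 hw4 hw3 e4 e3
  have k21 := key x2 x1 v2 v1 r2 r1 hw2 hw1 e2 e1
  have k41 := key x4 x1 v4 v1 r4 r1 hw4 hw1 e4 e1
  have k23 := key x2 x3 v2 v3 r2 r3 hw2 hw3 e2 e3
  -- cross-ratio identity
  have cr : (x4 - x1) * (x2 - x3) * (((r4 : ℝ) - r3) * ((r2 : ℝ) - r1))
      = (x4 - x3) * (x2 - x1) * (((r4 : ℝ) - r1) * ((r2 : ℝ) - r3)) := by
    have hV : v1 * v2 * v3 * v4 ≠ 0 := by positivity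
    apply mul_right_cancel₀ hV
    calc (x4 - x1) * (x2 - x3) * (((r4 : ℝ) - r3) * ((r2 : ℝ) - r1)) * (v1 * v2 * v3 * v4)
        = (x4 - x1) * (x2 - x3) * ((((r4 : ℝ) - r3) * (v4 * v3)) * (((r2 : ℝ) - r1) * (v2 * v1))) := by
          ring
      _ = (x4 - x3) * (x2 - x1) * ((((r4 : ℝ) - r1) * (v4 * v1)) * (((r2 : ℝ) - r3) * (v2 * v3))) := by
          rw [k43, k21, k41, k23]; ring
      _ = _ := by ring
  have d23 : x2 - x3 = ((a2 : ℤ) - (a3 : ℤ) : ℤ) := by
    rw [← hx2, ← hx3]; unfold phi; push_cast; ring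
  have d21 : x2 - x1 = ((a2 : ℤ) - (a1 : ℤ) : ℤ) := by
    rw [← hx2, ← hx1]; unfold phi; push_cast; ring
  have d41 : x4 - x1 = (((a4 : ℤ) - (a1 : ℤ) : ℤ) : ℝ) + (((b4 : ℤ) - (b : ℤ) : ℤ) : ℝ) * √2 := by
    rw [← hx4, ← hx1]; unfold phi; push_cast; ring
  have d43 : x4 - x3 = (((a4 : ℤ) - (a3 : ℤ) : ℤ) : ℝ) + (((b4 : ℤ) - (b : ℤ) : ℤ) : ℝ) * √2 := by
    rw [← hx4, ← hx3]; unfold phi; push_cast; ring
  -- integers p and q
  set p : ℤ := ((a2 : ℤ) - a3) * ((r4 - r3) * (r2 - r1)) with hp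
  set q : ℤ := ((a2 : ℤ) - a1) * ((r4 - r1) * (r2 - r3)) with hq
  have hlin : ((p * ((a4 : ℤ) - a1) - q * ((a4 : ℤ) - a3) : ℤ) : ℝ)
      + ((((p - q) * ((b4 : ℤ) - b)) : ℤ) : ℝ) * √2 = 0 := by
    have h1 : (x4 - x1) * (p : ℝ) = (x4 - x3) * (q : ℝ) := by
      rw [hp, hq]
      push_cast
      have h23' : ((a2 : ℝ) - a3) = x2 - x3 := by rw [d23]; push_cast; ring
      have h21' : ((a2 : ℝ) - a1) = x2 - x1 := by rw [d21]; push_cast; ring
      rw [h23', h21']
      linarith [cr]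
    rw [d41, d43] at h1
    push_cast at h1 ⊢
    linarith
  obtain ⟨i1, i2⟩ := int_lin hlin
  have hbb : ((b4 : ℤ) - b) ≠ 0 := by
    intro h
    apply hb
    omega
  have hpq : p = q := by
    rcases mul_eq_zero.mp i2 with h | h
    · omega
    · exact absurd h hbb
  rw [← hpq] at i1
  have i3 : p * ((a3 : ℤ) - a1) = 0 := by linarith
  have h31 : ((a3 : ℤ) - a1) ≠ 0 := by
    intro h; apply h13; omega
  have hp0 : p = 0 := by
    rcases mul_eq_zero.mp i3 with h | h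
    · exact h
    · exact absurd h h31
  -- but the integers r are pairwise different
  have rne : ∀ (x y v w : ℝ) (r s : ℤ), x ≠ y →
      ((r : ℝ) - s) * (v * w) = D * (x - y) → r ≠ s := by
    intro x y v w r s hxy h hrs
    subst hrs
    have : D * (x - y) = 0 := by rw [← h]; ring
    rcases mul_eq_zero.mp this with h' | h'
    · exact hD h'
    · exact hxy (sub_eq_zero.mp h')
  have x43 : x4 ≠ x3 := by
    rw [← hx4, ← hx3]
    intro h
    have := phi_inj h
    simp only [Prod.mk.injEq] at this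
    exact hb this.2
  have x21 : x2 ≠ x1 := by
    rw [← hx2, ← hx1]
    intro h
    have := phi_inj h
    simp only [Prod.mk.injEq] at this
    exact h12 this.1.symm
  have n43 := rne _ _ _ _ _ _ x43 k43
  have n21 := rne _ _ _ _ _ _ x21 k21
  rw [hp] at hp0
  rcases mul_eq_zero.mp hp0 with h | h
  · apply h23; omega
  · rcases mul_eq_zero.mp h with h | h
    · exact n43 (sub_eq_zero.mp h)
    · exact n21 (sub_eq_zero.mp h)

/-- more than `2 K` points of `K × K` contain three points of a row and a point off this row -/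
lemma rows (K : ℕ) (R : Finset (ℕ × ℕ)) (hR : R ⊆ Finset.range K ×ˢ Finset.range K)
    (hcard : 2 * K < R.card) :
    ∃ b b4 : ℕ, b4 ≠ b ∧ ∃ a1 a2 a3 a4 : ℕ, a1 ≠ a2 ∧ a1 ≠ a3 ∧ a2 ≠ a3 ∧
      (a1, b) ∈ R ∧ (a2, b) ∈ R ∧ (a3, b) ∈ R ∧ (a4, b4) ∈ R := by
  classical
  have hmaps : ∀ p ∈ R, p.2 ∈ Finset.range K := by
    intro p hp
    exact (Finset.mem_product.mp (hR hp)).2
  obtain ⟨b, hb, hlt⟩ := Finset.exists_lt_card_fiber_of_mul_lt_card_of_maps_to hmaps
    (n := 2) (by rw [Finset.card_range]; omega)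
  obtain ⟨p1, p2, p3, h1, h2, h3, h12, h13, h23⟩ := Finset.two_lt_card_iff.mp hlt
  rw [Finset.mem_filter] at h1 h2 h3
  -- the row has at most K elements
  have hrow : {x ∈ R | x.2 = b}.card ≤ K := by
    have : {x ∈ R | x.2 = b} ⊆ (Finset.range K).image (fun a => (a, b)) := by
      intro x hx
      rw [Finset.mem_filter] at hx
      rw [Finset.mem_image]
      refine ⟨x.1, (Finset.mem_product.mp (hR hx.1)).1, ?_⟩
      rw [← hx.2]
    calc _ ≤ ((Finset.range K).image (fun a => (a, b))).card := Finset.card_le_card this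
      _ ≤ (Finset.range K).card := Finset.card_image_le
      _ = K := Finset.card_range K
  have hex : ∃ p4 ∈ R, p4.2 ≠ b := by
    by_contra hcon
    push Not at hcon
    have : {x ∈ R | x.2 = b} = R := Finset.filter_true_of_mem hcon
    rw [this] at hrow
    omega
  obtain ⟨p4, h4, h4b⟩ := hex
  obtain ⟨a1, c1⟩ := p1
  obtain ⟨a2, c2⟩ := p2
  obtain ⟨a3, c3⟩ := p3
  obtain ⟨a4, c4⟩ := p4
  simp only at h1 h2 h3 h4b
  obtain ⟨h1, rfl⟩ := h1
  obtain ⟨h2, rfl⟩ := h2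
  obtain ⟨h3, rfl⟩ := h3
  refine ⟨c3, c4, h4b, a1, a2, a3, a4, ?_, ?_, ?_, h1, h2, h3, h4⟩
  · rintro rfl; exact h12 rfl
  · rintro rfl; exact h13 rfl
  · rintro rfl; exact h23 rfl

/-- the grid `{(a + b √2, y) : a, b < K, y ∈ Y}` -/
noncomputable def grid (K : ℕ) (Y : Finset ℝ) : Finset (ℝ × ℝ) :=
  ((Finset.range K ×ˢ Finset.range K) ×ˢ Y).image (fun z => (phi z.1, z.2))

lemma card_grid (K : ℕ) (Y : Finset ℝ) : (grid K Y).card = K * K * Y.card := by
  unfold grid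
  rw [Finset.card_image_of_injective, Finset.card_product, Finset.card_product, Finset.card_range]
  rintro ⟨p, y⟩ ⟨q, z⟩ h
  simp only [Prod.mk.injEq] at h
  rw [phi_inj h.1, h.2]

/-- a subset of a `Z[√2]`-grid with more than `2 K` points per row in the mean has no projective
image in `Z × Z` -/
theorem no_projective_image (K : ℕ) (Y : Finset ℝ) (X : Finset (ℝ × ℝ)) (hX : X ⊆ grid K Y)
    (hcard : 2 * K * Y.card < X.card) (M : Matrix (Fin 3) (Fin 3) ℝ) (hM : M.det ≠ 0)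
    (h : ∀ p ∈ X, M.mulVec ![p.1, p.2, 1] 2 ≠ 0 ∧ ∃ i j : ℤ,
      M.mulVec ![p.1, p.2, 1] 0 / M.mulVec ![p.1, p.2, 1] 2 = i ∧
      M.mulVec ![p.1, p.2, 1] 1 / M.mulVec ![p.1, p.2, 1] 2 = j) : False := by
  classical
  -- a rich row
  have hmaps : ∀ p ∈ X, p.2 ∈ Y := by
    intro p hp
    have := hX hp
    unfold grid at this
    rw [Finset.mem_image] at this
    obtain ⟨z, hz, rfl⟩ := this
    exact (Finset.mem_product.mp hz).2
  obtain ⟨y, hy, hlt⟩ := Finset.exists_lt_card_fiber_of_mul_lt_card_of_maps_to hmaps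
    (n := 2 * K) (by rw [mul_comm]; exact hcard)
  set R : Finset (ℕ × ℕ) := (Finset.range K ×ˢ Finset.range K).filter (fun a => (phi a, y) ∈ X)
    with hRdef
  have hRcard : 2 * K < R.card := by
    refine lt_of_lt_of_le hlt ?_
    have : {x ∈ X | x.2 = y} ⊆ R.image (fun a => (phi a, y)) := by
      intro x hx
      rw [Finset.mem_filter] at hx
      have hxg := hX hx.1
      unfold grid at hxg
      rw [Finset.mem_image] at hxg
      obtain ⟨z, hz, rfl⟩ := hxg
      rw [Finset.mem_image]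
      refine ⟨z.1, ?_, ?_⟩
      · rw [hRdef, Finset.mem_filter]
        refine ⟨(Finset.mem_product.mp hz).1, ?_⟩
        have h2 := hx.2
        simp only at h2
        rw [← h2]
        exact hx.1
      · have h2 := hx.2
        simp only at h2
        rw [h2]
    exact (Finset.card_le_card this).trans Finset.card_image_le
  obtain ⟨b, b4, hb, a1, a2, a3, a4, h12, h13, h23, m1, m2, m3, m4⟩ :=
    rows K R (Finset.filter_subset _ _) hRcard
  have hmem : ∀ a, a ∈ R → (phi a, y) ∈ X := by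
    intro a ha
    exact (Finset.mem_filter.mp ha).2
  -- the three coordinates as linear functions
  have hlin : ∀ (k : Fin 3) (x : ℝ), M.mulVec ![x, y, 1] k = M k 0 * x + (M k 1 * y + M k 2) := by
    intro k x
    simp [Matrix.mulVec, dotProduct, Fin.sum_univ_three]
    ring
  have hpt : ∀ a, a ∈ R → (M 2 0 * phi a + (M 2 1 * y + M 2 2) ≠ 0) ∧
      ∃ i j : ℤ, M 0 0 * phi a + (M 0 1 * y + M 0 2) = i * (M 2 0 * phi a + (M 2 1 * y + M 2 2)) ∧
        M 1 0 * phi a + (M 1 1 * y + M 1 2) = j * (M 2 0 * phi a + (M 2 1 * y + M 2 2)) := by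
    intro a ha
    obtain ⟨h0, i, j, hi, hj⟩ := h _ (hmem a ha)
    simp only at h0 hi hj
    rw [hlin] at h0
    rw [hlin, hlin] at hi hj
    refine ⟨h0, i, j, ?_, ?_⟩
    · rw [div_eq_iff h0] at hi; exact hi
    · rw [div_eq_iff h0] at hj; exact hj
  obtain ⟨w1, i1, j1, ei1, ej1⟩ := hpt _ m1
  obtain ⟨w2, i2, j2, ei2, ej2⟩ := hpt _ m2
  obtain ⟨w3, i3, j3, ei3, ej3⟩ := hpt _ m3
  obtain ⟨w4, i4, j4, ei4, ej4⟩ := hpt _ m4
  by_cases hD0 : M 0 0 * (M 2 1 * y + M 2 2) - (M 0 1 * y + M 0 2) * M 2 0 = 0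
  · by_cases hD1 : M 1 0 * (M 2 1 * y + M 2 2) - (M 1 1 * y + M 1 2) * M 2 0 = 0
    · -- then `M` is singular
      have hker : M.mulVec ![(M 2 1 * y + M 2 2), -(M 2 0) * y, -(M 2 0)] = 0 := by
        funext k
        fin_cases k
        · simp [Matrix.mulVec, dotProduct, Fin.sum_univ_three]
          linarith
        · simp [Matrix.mulVec, dotProduct, Fin.sum_univ_three]
          linarith
        · simp [Matrix.mulVec, dotProduct, Fin.sum_univ_three]
          ring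
      have hzero := Matrix.eq_zero_of_mulVec_eq_zero hM hker
      have z0 : M 2 1 * y + M 2 2 = 0 := by
        have := congrFun hzero 0
        simpa using this
      have z2 : M 2 0 = 0 := by
        have := congrFun hzero 2
        simpa using this
      apply w1
      rw [z0, z2]
      ring
    · exact core _ _ _ _ hD1 b b4 hb a1 a2 a3 a4 h12 h13 h23 j1 j2 j3 j4 w1 w2 w3 w4
        ej1 ej2 ej3 ej4
  · exact core _ _ _ _ hD0 b b4 hb a1 a2 a3 a4 h12 h13 h23 i1 i2 i3 i4 w1 w2 w3 w4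
      ei1 ei2 ei3 ei4

end Pool.Agent.Y374.NFGrid
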