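import Pool.Agent.Y374.NFGrid

set_option autoImplicit false

namespace Pool.Agent.Y374.NFGrid

/-- numbers `a + b √2` with `a < u`, `b < v` -/
noncomputable def boxv (u v : ℕ) : Finset ℝ :=
  (Finset.range u ×ˢ Finset.range v).image phi

lemma card_boxv (u v : ℕ) : (boxv u v).card = u * v := by
  unfold boxv
  rw [Finset.card_image_of_injective _ phi_inj, Finset.card_product, Finset.card_range,
    Finset.card_range]

/-- numbers `-(a + b √2)` with `a < u`, `b < v` -/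
noncomputable def nboxv (u v : ℕ) : Finset ℝ :=
  (Finset.range u ×ˢ Finset.range v).image (fun p => - phi p)

lemma card_nboxv (u v : ℕ) : (nboxv u v).card = u * v := by
  unfold nboxv
  rw [Finset.card_image_of_injective, Finset.card_product, Finset.card_range,
    Finset.card_range]
  intro p q h
  exact phi_inj (neg_injective h)

/-- the points -/
noncomputable def PP (N : ℕ) : Finset (ℝ × ℝ) := grid N (boxv (9 * N ^ 2) (16 * N ^ 2))

/-- the dual points of the lines -/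
noncomputable def QQ (N : ℕ) : Finset (ℝ × ℝ) := grid (2 * N) (nboxv (3 * N ^ 2) (12 * N ^ 2))

lemma card_PP (N : ℕ) : (PP N).card = 144 * N ^ 6 := by
  unfold PP
  rw [card_grid, card_boxv]
  ring

lemma card_QQ (N : ℕ) : (QQ N).card = 144 * N ^ 6 := by
  unfold QQ
  rw [card_grid, card_nboxv]
  ring

lemma phi_mul (a b c d : ℕ) : phi (a, b) * phi (c, d) = phi (a * c + 2 * (b * d), a * d + b * c) := by
  unfold phi
  simp only
  push_cast
  have h : (√2 : ℝ) * √2 = 2 := Real.mul_self_sqrt (by norm_num)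
  linear_combination (b * d : ℝ) * h

lemma phi_add (a b c d : ℕ) : phi (a, b) + phi (c, d) = phi (a + c, b + d) := by
  unfold phi
  simp only
  push_cast
  ring

/-- incidences between points and (dual points of) lines -/
def inc (P Q : Finset (ℝ × ℝ)) : Set ((ℝ × ℝ) × (ℝ × ℝ)) :=
  {x | x.1 ∈ P ∧ x.2 ∈ Q ∧ x.1.2 = x.2.1 * x.1.1 - x.2.2}

lemma inc_finite (P Q : Finset (ℝ × ℝ)) : (inc P Q).Finite := by
  apply Set.Finite.subset (P ×ˢ Q : Finset _).finite_toSet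
  rintro ⟨x, y⟩ ⟨h1, h2, -⟩
  simp only [Finset.coe_product, Set.mem_prod]
  exact ⟨h1, h2⟩

lemma inc_large (N : ℕ) : 144 * N ^ 8 ≤ (inc (PP N) (QQ N)).ncard := by
  classical
  -- the injection
  let S : Finset ((ℕ × ℕ) × (ℝ × ℝ)) := (Finset.range N ×ˢ Finset.range N) ×ˢ QQ N
  let f : (ℕ × ℕ) × (ℝ × ℝ) → (ℝ × ℝ) × (ℝ × ℝ) :=
    fun z => ((phi z.1, z.2.1 * phi z.1 - z.2.2), z.2)
  have hf : Function.Injective f := by
    rintro ⟨a, q⟩ ⟨b, r⟩ h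
    simp only [f, Prod.mk.injEq] at h
    obtain ⟨⟨h1, -⟩, h2⟩ := h
    rw [phi_inj h1, h2]
  have hsub : ((S.image f : Finset _) : Set _) ⊆ inc (PP N) (QQ N) := by
    intro x hx
    rw [Finset.mem_coe, Finset.mem_image] at hx
    obtain ⟨⟨a, q⟩, hz, rfl⟩ := hx
    simp only [S, Finset.mem_product, Finset.mem_range] at hz
    obtain ⟨⟨ha1, ha2⟩, hq⟩ := hz
    refine ⟨?_, hq, rfl⟩
    simp only [f]
    unfold QQ grid at hq
    rw [Finset.mem_image] at hq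
    obtain ⟨⟨s, t⟩, hst, rfl⟩ := hq
    rw [Finset.mem_product, Finset.mem_product] at hst
    obtain ⟨⟨hs1, hs2⟩, ht⟩ := hst
    unfold nboxv at ht
    rw [Finset.mem_image] at ht
    obtain ⟨t', ht', rfl⟩ := ht
    rw [Finset.mem_product] at ht'
    simp only [Finset.mem_range] at hs1 hs2 ht'
    obtain ⟨s1, s2⟩ := s
    obtain ⟨t1, t2⟩ := t'
    obtain ⟨a1, a2⟩ := a
    simp only at hs1 hs2 ht' ha1 ha2
    simp only
    have hval : phi (s1, s2) * phi (a1, a2) - -phi (t1, t2)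
        = phi (s1 * a1 + 2 * (s2 * a2) + t1, s1 * a2 + s2 * a1 + t2) := by
      rw [sub_neg_eq_add, phi_mul, phi_add]
    rw [hval]
    unfold PP grid
    rw [Finset.mem_image]
    refine ⟨((a1, a2), phi (s1 * a1 + 2 * (s2 * a2) + t1, s1 * a2 + s2 * a1 + t2)), ?_, rfl⟩
    rw [Finset.mem_product, Finset.mem_product]
    simp only [Finset.mem_range]
    refine ⟨⟨ha1, ha2⟩, ?_⟩
    unfold boxv
    rw [Finset.mem_image]
    refine ⟨_, ?_, rfl⟩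
    rw [Finset.mem_product]
    simp only [Finset.mem_range]
    have e1 : s1 * a1 ≤ 2 * N * N := Nat.mul_le_mul hs1.le ha1.le
    have e2 : s2 * a2 ≤ 2 * N * N := Nat.mul_le_mul hs2.le ha2.le
    have e3 : s1 * a2 ≤ 2 * N * N := Nat.mul_le_mul hs1.le ha2.le
    have e4 : s2 * a1 ≤ 2 * N * N := Nat.mul_le_mul hs2.le ha1.le
    obtain ⟨t1', t2'⟩ := ht'
    constructor
    · nlinarith
    · nlinarith
  calc 144 * N ^ 8 = S.card := by
        simp only [S, Finset.card_product, Finset.card_range, card_QQ]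
        ring
    _ = (S.image f).card := (Finset.card_image_of_injective _ hf).symm
    _ = ((S.image f : Finset _) : Set _).ncard := (Set.ncard_coe_finset _).symm
    _ ≤ _ := Set.ncard_le_ncard hsub (inc_finite _ _)

lemma sixth (N : ℕ) : (1 / 6 : ℝ) * ((144 * N ^ 6 : ℕ) : ℝ) ^ (2 / 3 : ℝ)
    * ((144 * N ^ 6 : ℕ) : ℝ) ^ (2 / 3 : ℝ) ≤ ((144 * N ^ 8 : ℕ) : ℝ) := by
  have h0 : (0 : ℝ) ≤ ((144 * N ^ 6 : ℕ) : ℝ) := by positivity
  have h1 : ((144 * N ^ 6 : ℕ) : ℝ) ^ (2 / 3 : ℝ) * ((144 * N ^ 6 : ℕ) : ℝ) ^ (2 / 3 : ℝ)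
      = ((144 * N ^ 6 : ℕ) : ℝ) * ((144 * N ^ 6 : ℕ) : ℝ) ^ (1 / 3 : ℝ) := by
    rw [← Real.rpow_add_of_nonneg h0 (by norm_num) (by norm_num)]
    nth_rw 2 [← Real.rpow_one ((144 * N ^ 6 : ℕ) : ℝ)]
    rw [← Real.rpow_add_of_nonneg h0 (by norm_num) (by norm_num)]
    norm_num
  have h2 : ((144 * N ^ 6 : ℕ) : ℝ) ^ (1 / 3 : ℝ) ≤ 6 * (N : ℝ) ^ 2 := by
    have h3 : ((144 * N ^ 6 : ℕ) : ℝ) ≤ (6 * (N : ℝ) ^ 2) ^ (3 : ℝ) := by
      have : (6 * (N : ℝ) ^ 2) ^ (3 : ℝ) = (6 * (N : ℝ) ^ 2) ^ (3 : ℕ) := by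
        rw [← Real.rpow_natCast]; norm_num
      rw [this]
      push_cast
      have h4 : (0 : ℝ) ≤ (N : ℝ) ^ 6 := by positivity
      nlinarith
    calc ((144 * N ^ 6 : ℕ) : ℝ) ^ (1 / 3 : ℝ)
        ≤ ((6 * (N : ℝ) ^ 2) ^ (3 : ℝ)) ^ (1 / 3 : ℝ) := by
          apply Real.rpow_le_rpow h0 h3 (by norm_num)
      _ = 6 * (N : ℝ) ^ 2 := by
          rw [← Real.rpow_mul (by positivity)]
          norm_num
  calc (1 / 6 : ℝ) * ((144 * N ^ 6 : ℕ) : ℝ) ^ (2 / 3 : ℝ) * ((144 * N ^ 6 : ℕ) : ℝ) ^ (2 / 3 : ℝ)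
      = (1 / 6 : ℝ) * (((144 * N ^ 6 : ℕ) : ℝ) ^ (2 / 3 : ℝ) * ((144 * N ^ 6 : ℕ) : ℝ) ^ (2 / 3 : ℝ)) := by
        ring
    _ = (1 / 6 : ℝ) * (((144 * N ^ 6 : ℕ) : ℝ) * ((144 * N ^ 6 : ℕ) : ℝ) ^ (1 / 3 : ℝ)) := by rw [h1]
    _ ≤ (1 / 6 : ℝ) * (((144 * N ^ 6 : ℕ) : ℝ) * (6 * (N : ℝ) ^ 2)) := by gcongr
    _ = ((144 * N ^ 8 : ℕ) : ℝ) := by push_cast; ring

/-- For every `c > 0` and every `n₀` there are `n ≥ n₀`, a set `P` of `n` points and a set `Q` of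
`n` dual points with at least `n ^ (4/3) / 6` incidences, such that no `c n` points of `P` and no
`c n` points of `Q` can be mapped into `Z × Z` by a projective map. -/
theorem main (c : ℝ) (hc : 0 < c) (n₀ : ℕ) : ∃ n : ℕ, n₀ ≤ n ∧ 1 ≤ n ∧
    ∃ P Q : Finset (ℝ × ℝ), P.card = n ∧ Q.card = n ∧
      (1 / 6 : ℝ) * (n : ℝ) ^ (2 / 3 : ℝ) * (n : ℝ) ^ (2 / 3 : ℝ) ≤ ((inc P Q).ncard : ℝ) ∧
      (∀ X ⊆ P, c * n ≤ X.card → ∀ M : Matrix (Fin 3) (Fin 3) ℝ, M.det ≠ 0 →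
        ¬ ∀ p ∈ X, M.mulVec ![p.1, p.2, 1] 2 ≠ 0 ∧ ∃ i j : ℤ,
          M.mulVec ![p.1, p.2, 1] 0 / M.mulVec ![p.1, p.2, 1] 2 = i ∧
          M.mulVec ![p.1, p.2, 1] 1 / M.mulVec ![p.1, p.2, 1] 2 = j) ∧
      (∀ X ⊆ Q, c * n ≤ X.card → ∀ M : Matrix (Fin 3) (Fin 3) ℝ, M.det ≠ 0 →
        ¬ ∀ p ∈ X, M.mulVec ![p.1, p.2, 1] 2 ≠ 0 ∧ ∃ i j : ℤ,
          M.mulVec ![p.1, p.2, 1] 0 / M.mulVec ![p.1, p.2, 1] 2 = i ∧
          M.mulVec ![p.1, p.2, 1] 1 / M.mulVec ![p.1, p.2, 1] 2 = j) := by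
  obtain ⟨k, hk⟩ := exists_nat_gt (2 / c)
  set N : ℕ := max (k + 1) (n₀ + 1) with hN
  have hN1 : 1 ≤ N := le_trans (by omega) (le_max_left _ _)
  have hNn : n₀ ≤ N := le_trans (by omega) (le_max_right _ _)
  have hNk : (k : ℝ) ≤ N := by
    exact_mod_cast le_trans (by omega : k ≤ k + 1) (le_max_left _ _)
  have hcN : 2 < c * N := by
    have h1 : 2 / c < N := lt_of_lt_of_le hk hNk
    rw [div_lt_iff₀ hc] at h1
    linarith
  have hN0 : (0 : ℝ) < N := by exact_mod_cast hN1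
  have hpow : N ≤ N ^ 6 := Nat.le_self_pow (by norm_num) N
  refine ⟨144 * N ^ 6, by omega, by omega, PP N, QQ N, card_PP N, card_QQ N, ?_, ?_, ?_⟩
  · refine (sixth N).trans ?_
    exact_mod_cast inc_large N
  · intro X hX hcard M hM h
    refine no_projective_image N _ X hX ?_ M hM h
    rw [card_boxv]
    have : ((2 * N * (9 * N ^ 2 * (16 * N ^ 2)) : ℕ) : ℝ) < X.card := by
      refine lt_of_lt_of_le ?_ hcard
      push_cast
      have h5 : (0 : ℝ) < (N : ℝ) ^ 5 := by positivity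
      nlinarith
    exact_mod_cast this
  · intro X hX hcard M hM h
    refine no_projective_image (2 * N) _ X hX ?_ M hM h
    rw [card_nboxv]
    have : ((2 * (2 * N) * (3 * N ^ 2 * (12 * N ^ 2)) : ℕ) : ℝ) < X.card := by
      refine lt_of_lt_of_le ?_ hcard
      push_cast
      have h5 : (0 : ℝ) < (N : ℝ) ^ 5 := by positivity
      nlinarith
    exact_mod_cast this

end Pool.Agent.Y374.NFGrid
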